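import Pool.Agent.TH872.Sq.W4

set_option autoImplicit false

/-! Integers with restricted digits and their uniform law (as in the starting files `TH872/Sq/W13` and `W19`,
repeated here to keep the list of imports short). -/

namespace Pool.Agent.J4.H78.RD
open Finset
open Pool.Agent.H807R2.Dav
open Pool.Agent.TH872.Sq (Dig P P_nonneg P_le P_sum ex_split_real)

/-- the integers below `b ^ k` whose `i`-th digit belongs to `D i` -/
def SD (b : ℕ) (D : ℕ → Finset ℕ) (k : ℕ) : Finset ℕ := (range (b ^ k)).filter (fun n : ℕ => ∀ i < k, n / b ^ i % b ∈ D i)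

/-- the law of a digit -/
noncomputable def wD (D : ℕ → Finset ℕ) (k i a : ℕ) : ℝ := if i < k then (if a ∈ D i then 1 / ((D i).card : ℝ) else 0) else
  (if a < 2 then 1 / 2 else 0)

lemma dig_wD (b : ℕ) (hb : 2 ≤ b) (D : ℕ → Finset ℕ) (k : ℕ) (hD : ∀ i < k, D i ⊆ range b ∧ 2 ≤ (D i).card) : Dig b (1 / 2) (wD D k) := by
  refine ⟨fun i a => ?_, fun i => ?_, fun i a => ?_⟩
  · unfold wD
    split_ifs <;> positivity
  · unfold wD
    split_ifs with h
    · obtain ⟨h1, h2⟩ := hD i h
      rw [← sum_filter]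
      have h3 : (range b).filter (fun a => a ∈ D i) = D i := by
        ext a
        rw [mem_filter]
        exact ⟨fun h => h.2, fun h => ⟨h1 h, h⟩⟩
      rw [h3, sum_const, nsmul_eq_mul]
      have : (0 : ℝ) < (D i).card := by exact_mod_cast (by omega : 0 < (D i).card)
      field_simp
    · rw [← sum_filter]
      have h3 : (range b).filter (fun a => a < 2) = range 2 := by
        ext a
        rw [mem_filter, mem_range, mem_range]
        omega
      rw [h3, sum_const, card_range, nsmul_eq_mul]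
      norm_num
  · unfold wD
    split_ifs with h h'
    · obtain ⟨h1, h2⟩ := hD i h
      have : (2 : ℝ) ≤ (D i).card := by exact_mod_cast h2
      have h3 : 1 / ((D i).card : ℝ) ≤ 1 / 2 := one_div_le_one_div_of_le (by norm_num) this
      linarith
    all_goals norm_num

lemma P_wD (b : ℕ) (hb : 2 ≤ b) (D : ℕ → Finset ℕ) (k : ℕ) (hD : ∀ i < k, D i ⊆ range b ∧ 2 ≤ (D i).card) :
    ∀ n ∈ range (b ^ k), P b (wD D k) 0 k n = if n ∈ SD b D k then 1 / ((SD b D k).card : ℝ) else 0 := by
  classical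
  obtain ⟨C, hC⟩ : ∃ C : ℝ, C = ∏ i ∈ range k, (1 / ((D i).card : ℝ)) := ⟨_, rfl⟩
  have h1 : ∀ n ∈ range (b ^ k), P b (wD D k) 0 k n = if n ∈ SD b D k then C else 0 := by
    intro n hn
    unfold P
    by_cases h : n ∈ SD b D k
    · rw [if_pos h, hC]
      unfold SD at h
      rw [mem_filter] at h
      apply prod_congr rfl
      intro i hi
      rw [mem_range] at hi
      unfold wD
      rw [zero_add, if_pos hi, if_pos (h.2 i hi)]
    · rw [if_neg h]
      unfold SD at h
      rw [mem_filter] at h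
      have h2 : ∃ i < k, n / b ^ i % b ∉ D i := by
        by_contra h3
        push Not at h3
        exact h ⟨hn, h3⟩
      obtain ⟨i, hi, h3⟩ := h2
      apply prod_eq_zero (mem_range.2 hi)
      unfold wD
      rw [zero_add, if_pos hi, if_neg h3]
  have h2 := P_sum (by omega : 0 < b) (dig_wD b hb D k hD) 0 k
  rw [sum_congr rfl h1, ← sum_filter, sum_const, nsmul_eq_mul] at h2
  have h3 : (range (b ^ k)).filter (fun n => n ∈ SD b D k) = SD b D k := by
    ext n
    rw [mem_filter]
    refine ⟨fun h => h.2, fun h => ⟨?_, h⟩⟩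
    unfold SD at h
    exact (mem_filter.1 h).1
  rw [h3] at h2
  have h4 : ((SD b D k).card : ℝ) ≠ 0 := by
    intro h5
    rw [h5, zero_mul] at h2
    exact zero_ne_one h2
  intro n hn
  rw [h1 n hn]
  split_ifs
  · field_simp
    linarith
  · rfl

lemma sum_wD (b : ℕ) (hb : 2 ≤ b) (D : ℕ → Finset ℕ) (k : ℕ) (hD : ∀ i < k, D i ⊆ range b ∧ 2 ≤ (D i).card) (g : ℕ → ℝ) :
    ∑ n ∈ range (b ^ k), P b (wD D k) 0 k n * g n = 1 / ((SD b D k).card : ℝ) * ∑ n ∈ SD b D k, g n := by
  classical
  have h1 : ∀ n ∈ range (b ^ k), P b (wD D k) 0 k n * g n = if n ∈ SD b D k then 1 / ((SD b D k).card : ℝ) * g n else 0 := by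
    intro n hn
    rw [P_wD b hb D k hD n hn]
    split_ifs
    · rfl
    · rw [zero_mul]
  rw [sum_congr rfl h1, ← sum_filter, mul_sum]
  apply sum_congr _ fun _ _ => rfl
  ext n
  rw [mem_filter]
  refine ⟨fun h => h.2, fun h => ⟨?_, h⟩⟩
  unfold SD at h
  exact (mem_filter.1 h).1
/-- few integers with restricted digits have given leading digits -/
lemma prefix_small (b : ℕ) (hb : 2 ≤ b) (D : ℕ → Finset ℕ) (m j : ℕ) (hD : ∀ i < m + j, D i ⊆ range b ∧ 2 ≤ (D i).card) (v₀ : ℕ) :
    (((SD b D (m + j)).filter (fun n => n / b ^ m = v₀)).card : ℝ) ≤ ((SD b D (m + j)).card : ℝ) * (1 / 2) ^ j := by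
  classical
  have hw := dig_wD b hb D (m + j) hD
  have hbm : 0 < b ^ m := Nat.pow_pos (by omega)
  have h1 := sum_wD b hb D (m + j) hD (fun n => if n / b ^ m = v₀ then (1 : ℝ) else 0)
  rw [sum_boole] at h1
  have h2 : ∑ n ∈ range (b ^ (m + j)), P b (wD D (m + j)) 0 (m + j) n * (if n / b ^ m = v₀ then (1 : ℝ) else 0) ≤ (1 / 2) ^ j := by
    rw [ex_split_real b (by omega)]
    have h3 : ∀ u ∈ range (b ^ m), P b (wD D (m + j)) 0 m u * ∑ v ∈ range (b ^ j), P b (wD D (m + j)) (0 + m) j v *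
        (if (u + b ^ m * v) / b ^ m = v₀ then (1 : ℝ) else 0) ≤ P b (wD D (m + j)) 0 m u * (1 / 2) ^ j := by
      intro u hu
      rw [mem_range] at hu
      apply mul_le_mul_of_nonneg_left _ (P_nonneg hw _ _ _)
      have h4 : ∀ v ∈ range (b ^ j), P b (wD D (m + j)) (0 + m) j v * (if (u + b ^ m * v) / b ^ m = v₀ then (1 : ℝ) else 0) =
          if v = v₀ then P b (wD D (m + j)) (0 + m) j v else 0 := by
        intro v _
        have e1 : (u + b ^ m * v) / b ^ m = v := by rw [Nat.add_mul_div_left _ _ hbm, Nat.div_eq_of_lt hu, Nat.zero_add]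
        rw [e1]
        split_ifs
        · rw [mul_one]
        · rw [mul_zero]
      rw [sum_congr rfl h4, sum_ite_eq']
      split_ifs
      · refine (P_le hw _ _ _).trans (le_of_eq ?_)
        norm_num
      · positivity
    refine (sum_le_sum h3).trans ?_
    rw [← sum_mul, P_sum (by omega) hw, one_mul]
  rw [h1] at h2
  rcases Nat.eq_zero_or_pos (SD b D (m + j)).card with h | h
  · have h5 : ((SD b D (m + j)).filter (fun n => n / b ^ m = v₀)).card = 0 := by
      have := card_filter_le (SD b D (m + j)) (fun n => n / b ^ m = v₀)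
      omega
    rw [h5, h]
    simp
  · have h5 : (0 : ℝ) < (SD b D (m + j)).card := by exact_mod_cast h
    rw [one_div_mul_eq_div, div_le_iff₀ h5] at h2
    rw [mul_comm]
    exact h2

lemma SD_card_pos (b : ℕ) (hb : 2 ≤ b) (D : ℕ → Finset ℕ) (k : ℕ) (hD : ∀ i < k, D i ⊆ range b ∧ 2 ≤ (D i).card) :
    (0 : ℝ) < (SD b D k).card := by
  have h3 := P_wD b hb D k hD
  have h4 := P_sum (by omega : 0 < b) (dig_wD b hb D k hD) 0 k
  rw [sum_congr rfl h3] at h4
  by_contra h5
  have h6 : ((SD b D k).card : ℝ) = 0 := le_antisymm (not_lt.1 h5) (Nat.cast_nonneg _)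
  rw [h6, div_zero] at h4
  simp at h4

end Pool.Agent.J4.H78.RD
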