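import Pool.Agent.J4.H78.RD.Weyl
import Pool.Agent.N542.PB.Crit

set_option autoImplicit false

/-! Record gaps between primes around the values of several polynomials at integers with restricted digits. -/

namespace Pool.Agent.J4.H78.RD
open Finset Filter Topology
open Pool.Agent.H807R2.Dav (ee ee_eq norm_ee)
open Pool.Agent.H469R2.NK (e norm_e)
open Pool.Agent.TH872.Sq (Dig P P_nonneg P_le P_sum ex_split_real)
open Pool.Agent.J4.H93.PD (PF)
open Pool.Agent.W147.PS (ff ev_pow)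
open Pool.Agent.N542.PB (many)

lemma e_eq (x : ℝ) : e x = ee x := by
  unfold e
  rw [ee_eq]

/-- The numbers `α j` with the same `d j` are not jointly Liouville. -/
def NL {r : ℕ} (d : Fin r → ℕ) (α : Fin r → ℝ) : Prop :=
  ∃ c μ : ℝ, 0 < c ∧ 0 ≤ μ ∧ ∀ (m : ℕ) (h : Fin r → ℤ) (a : ℤ) (H : ℝ), (∃ j, d j = m ∧ h j ≠ 0) →
    (∀ j, |(h j : ℝ)| ≤ H) → c * H ^ (-μ) ≤ |∑ j, (if d j = m then (h j : ℝ) * α j else 0) - a|

/-- linear combinations -/
lemma PF_comb {r : ℕ} (d : Fin r → ℕ) (α : Fin r → ℝ) (G : Fin r → ℝ → ℝ) (hG : ∀ j, PF (d j) (α j) (G j))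
    (m : ℕ) (h : Fin r → ℤ) (hm : ∀ j, h j ≠ 0 → d j ≤ m) (q : ℝ) :
    PF m ((∑ j, (if d j = m then (h j : ℝ) * α j else 0)) / q) (fun y => ∑ j, (h j : ℝ) * (G j y / q)) := by
  classical
  choose a ha hGa using hG
  refine ⟨fun i => ∑ j, (h j : ℝ) / q * (if i ≤ d j then a j i else 0), ?_, fun y => ?_⟩
  · show ∑ j, (h j : ℝ) / q * (if m ≤ d j then a j m else 0) = _
    rw [sum_div]
    apply sum_congr rfl
    intro j _
    by_cases h0 : h j = 0
    · rw [h0]
      simp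
    · have h1 := hm j h0
      by_cases h2 : d j = m
      · rw [if_pos h2.ge, if_pos h2, ← ha j, h2]
        ring
      · rw [if_neg (by omega), if_neg h2]
        ring
  · show ∑ j, (h j : ℝ) * (G j y / q) = ∑ i ∈ range (m + 1), (∑ j, (h j : ℝ) / q * (if i ≤ d j then a j i else 0)) * y ^ i
    simp only [sum_mul]
    rw [sum_comm]
    apply sum_congr rfl
    intro j _
    by_cases h0 : h j = 0
    · rw [h0]
      simp
    · have h1 := hm j h0
      rw [hGa j y]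
      have h2 : ∑ i ∈ range (m + 1), (h j : ℝ) / q * (if i ≤ d j then a j i else 0) * y ^ i =
          ∑ i ∈ range (d j + 1), (h j : ℝ) / q * a j i * y ^ i := by
        have h3 : range (d j + 1) ⊆ range (m + 1) := range_subset_range.2 (by omega)
        rw [← sum_subset h3]
        · apply sum_congr rfl
          intro i hi
          rw [mem_range] at hi
          rw [if_pos (by omega)]
        · intro i _ hi
          rw [mem_range] at hi
          rw [if_neg (by omega)]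
          ring
      rw [h2, sum_div, mul_sum]
      apply sum_congr rfl
      intro i _
      ring

/-- **The main theorem.** -/
theorem main (b r : ℕ) (hb : 2 ≤ b) (hr : 1 ≤ r) (d : Fin r → ℕ) (hd : ∀ j, 2 ≤ d j) (α : Fin r → ℝ)
    (hα : NL d α) (ε : ℝ) (hε : 0 < ε) (hε1 : ε ≤ 1) :
    ∃ κ : ℝ, 0 < κ ∧ ∃ k₀ : ℕ, ∀ k : ℕ, k₀ ≤ k → ∀ D : ℕ → Finset ℕ,
    (∀ i < k, D i ⊆ range b ∧ 2 ≤ (D i).card) → ∀ G : Fin r → ℝ → ℝ, (∀ j, PF (d j) (α j) (G j)) →
    (∀ n ∈ SD b D k, ((b : ℝ) ^ k) ^ (1 - ε) ≤ n → ∀ j, ((b : ℝ) ^ k) ^ ε ≤ G j n) →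
    ∃ A ⊆ SD b D k, ((SD b D k).card : ℝ) * ((b : ℝ) ^ k) ^ (-ε) ≤ A.card ∧
      ∀ n ∈ A, ∀ j, ∀ q : ℕ, q.Prime → κ * ff ((b : ℝ) ^ k) < |(q : ℝ) - G j n| := by
  classical
  obtain ⟨c, μ, hc, hμ, hNL⟩ := hα
  obtain ⟨τ, hτ⟩ : ∃ τ : ℝ, τ = 1 / (4 * (μ + 1)) := ⟨_, rfl⟩
  have hτ0 : 0 < τ := by rw [hτ]; positivity
  have hweyl := fun j => weyl_pow b hb (d j) (hd j) τ hτ0
  choose η₀ hη₀ K₀ hK₀ using hweyl
  have hne : (univ : Finset (Fin r)).Nonempty := ⟨⟨0, by omega⟩, mem_univ _⟩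
  obtain ⟨η₁, hη₁⟩ : ∃ η₁ : ℝ, η₁ = univ.inf' hne η₀ := ⟨_, rfl⟩
  have hη₁0 : 0 < η₁ := by
    rw [hη₁, lt_inf'_iff]
    exact fun j _ => hη₀ j
  have hη₁le : ∀ j, η₁ ≤ η₀ j := fun j => by
    rw [hη₁]
    exact inf'_le _ (mem_univ j)
  obtain ⟨K₁, hK₁⟩ : ∃ K₁ : ℕ, K₁ = univ.sup K₀ := ⟨_, rfl⟩
  have hK₁le : ∀ j, K₀ j ≤ K₁ := fun j => by
    rw [hK₁]
    exact le_sup (f := K₀) (mem_univ j)
  have hb2 : (2 : ℝ) ≤ b := by exact_mod_cast hb
  have hb0 : (0 : ℝ) < b := by linarith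
  have hb1 : (1 : ℝ) < b := by linarith
  have hlogb : 0 < Real.log b := Real.log_pos hb1
  have hlog2 : 0 < Real.log 2 := Real.log_pos (by norm_num)
  -- the saving
  obtain ⟨η, hη⟩ : ∃ η : ℝ, η = min (min τ (η₁ / 2)) (min (ε / 2) (ε * Real.log 2 / (2 * Real.log b))) := ⟨_, rfl⟩
  have hη0 : 0 < η := by
    rw [hη]
    exact lt_min (lt_min hτ0 (by positivity)) (lt_min (by positivity) (by positivity))
  have hητ : η ≤ τ := by rw [hη]; exact (min_le_left _ _).trans (min_le_left _ _)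
  have hηη : 2 * η ≤ η₁ := by
    have : η ≤ η₁ / 2 := by rw [hη]; exact (min_le_left _ _).trans (min_le_right _ _)
    linarith
  have hηε : 2 * η ≤ ε := by
    have : η ≤ ε / 2 := by rw [hη]; exact (min_le_right _ _).trans (min_le_left _ _)
    linarith
  have hηb : η * Real.log b ≤ ε * Real.log 2 / 2 := by
    have : η ≤ ε * Real.log 2 / (2 * Real.log b) := by rw [hη]; exact (min_le_right _ _).trans (min_le_right _ _)
    rw [le_div_iff₀ (by positivity)] at this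
    linarith
  have hη1 : η ≤ 1 := by linarith
  obtain ⟨κ, hκ, hmany⟩ := many r hr η hη0 hη1
  have hZlim : Tendsto (fun k : ℕ => (b : ℝ) ^ k) atTop atTop := tendsto_pow_atTop_atTop_of_one_lt hb1
  obtain ⟨k₁, hk₁⟩ := eventually_atTop.1 ((hZlim.eventually hmany).and ((hZlim.eventually (ev_pow (-1) (-(1 / 2)) (2 / c) (by norm_num))).and
    ((hZlim.eventually (ev_pow (-(2 * η)) (-η) 8 (by linarith))).and (hZlim.eventually (ev_pow (-(2 * η)) (-η) 32 (by linarith))))))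
  refine ⟨κ, hκ, k₁ + K₁ + 1, fun k hk D hD G hG hsize => ?_⟩
  obtain ⟨hm, hz1, hz2, hz3⟩ := hk₁ k (by omega)
  obtain ⟨Z, hZ⟩ : ∃ Z : ℝ, Z = (b : ℝ) ^ k := ⟨_, rfl⟩
  rw [← hZ] at hm hz1 hz2 hz3 hsize ⊢
  have hZ1 : 1 ≤ Z := by rw [hZ]; exact one_le_pow₀ hb1.le
  have hZ0 : 0 < Z := by linarith
  have hZpow : ∀ x : ℝ, Z ^ x = Real.exp (x * k * Real.log b) := by
    intro x
    rw [hZ, ← Real.rpow_natCast, ← Real.rpow_mul hb0.le, Real.rpow_def_of_pos hb0]
    congr 1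
    ring
  have hmono : ∀ x y : ℝ, x ≤ y → Z ^ x ≤ Z ^ y := fun x y h => Real.rpow_le_rpow_of_exponent_le hZ1 h
  obtain ⟨S, hS⟩ : ∃ S, S = SD b D k := ⟨_, rfl⟩
  rw [← hS] at hsize ⊢
  have hcard : (0 : ℝ) < S.card := by rw [hS]; exact SD_card_pos b hb D k hD
  set s : Finset ℕ := S.filter (fun n : ℕ => Z ^ (1 - ε) ≤ n) with hs
  set lo : Finset ℕ := S.filter (fun n : ℕ => ¬ Z ^ (1 - ε) ≤ n) with hlo
  have hsplit : (s.card : ℝ) + lo.card = S.card := by
    exact_mod_cast card_filter_add_card_filter_not (s := S) (fun n : ℕ => Z ^ (1 - ε) ≤ n)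
  -- few small members
  have hlow : (lo.card : ℝ) ≤ S.card * (Z ^ (-η) / 8) := by
    obtain ⟨m, hm'⟩ : ∃ m : ℕ, m = ⌈(1 - ε) * k⌉₊ := ⟨_, rfl⟩
    have hkr : (0 : ℝ) ≤ k := Nat.cast_nonneg k
    have hmk : m ≤ k := by
      rw [hm', Nat.ceil_le]
      nlinarith
    have h1 := few_low b hb D m k hmk hD
    rw [← hS] at h1
    have h2 : lo ⊆ S.filter (fun n => n < b ^ m) := by
      intro n hn
      rw [hlo, mem_filter] at hn
      rw [mem_filter]
      refine ⟨hn.1, ?_⟩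
      have h3 : (n : ℝ) < Z ^ (1 - ε) := not_le.1 hn.2
      have h4 : Z ^ (1 - ε) ≤ (b : ℝ) ^ m := by
        rw [hZ, ← Real.rpow_natCast, ← Real.rpow_mul hb0.le, ← Real.rpow_natCast]
        apply Real.rpow_le_rpow_of_exponent_le hb1.le
        rw [hm', mul_comm]
        exact Nat.le_ceil _
      exact_mod_cast h3.trans_le h4
    have h3 : (lo.card : ℝ) ≤ S.card * (1 / 2) ^ (k - m) :=
      le_trans (by exact_mod_cast card_le_card h2) h1
    refine h3.trans (mul_le_mul_of_nonneg_left ?_ hcard.le)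
    have h4 : (m : ℝ) < (1 - ε) * k + 1 := by
      rw [hm']
      exact Nat.ceil_lt_add_one (mul_nonneg (by linarith) hkr)
    have h5 : ε * k - 1 ≤ ((k - m : ℕ) : ℝ) := by
      rw [Nat.cast_sub hmk]
      linarith
    have h6 : (1 / 2 : ℝ) ^ (k - m) ≤ 2 * Z ^ (-(2 * η)) := by
      have g1 : (1 / 2 : ℝ) ^ (k - m) = Real.exp (-(((k - m : ℕ) : ℝ) * Real.log 2)) := by
        rw [one_div, inv_pow, Real.exp_neg, Real.exp_nat_mul, Real.exp_log (by norm_num)]
      have g2 : 2 * Z ^ (-(2 * η)) = Real.exp (Real.log 2 + -(2 * η) * k * Real.log b) := by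
        rw [hZpow, Real.exp_add, Real.exp_log (by norm_num)]
      rw [g1, g2]
      apply Real.exp_le_exp.2
      have g3 : (ε * k - 1) * Real.log 2 ≤ ((k - m : ℕ) : ℝ) * Real.log 2 :=
        mul_le_mul_of_nonneg_right h5 hlog2.le
      have g4 : 2 * (η * Real.log b) * k ≤ ε * Real.log 2 * k := by
        apply mul_le_mul_of_nonneg_right _ hkr
        linarith
      nlinarith
    have h7 : 2 * Z ^ (-(2 * η)) ≤ Z ^ (-η) / 8 := by
      have h8 : 0 ≤ Z ^ (-(2 * η)) := (Real.rpow_pos_of_pos hZ0 _).le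
      linarith
    exact h6.trans h7
  have hZη1 : Z ^ (-η) ≤ 1 := by
    rw [← Real.rpow_zero Z]
    exact hmono _ _ (by linarith)
  have hZη0 : 0 < Z ^ (-η) := Real.rpow_pos_of_pos hZ0 _
  have hshalf : (S.card : ℝ) / 2 ≤ s.card := by
    have : (S.card : ℝ) * (Z ^ (-η) / 8) ≤ S.card * (1 / 8) := mul_le_mul_of_nonneg_left (by linarith) hcard.le
    linarith
  have hspos : (0 : ℝ) < s.card := by linarith
  obtain ⟨A, hAs, hA1, hA2⟩ := hm ℕ s (fun n j => G j n) (by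
      rw [← Finset.card_pos]
      exact_mod_cast hspos) (by
      intro n hn j
      rw [hs, mem_filter] at hn
      exact (hmono _ _ (by linarith)).trans (hsize n hn.1 hn.2 j)) (by
      intro q hq hqZ h hh hhZ
      -- the degree
      obtain ⟨j₀, hj₀, hmax⟩ := exists_max_image (univ.filter (fun j => h j ≠ 0)) d (by
        by_contra hcon
        rw [not_nonempty_iff_eq_empty, filter_eq_empty_iff] at hcon
        apply hh
        ext j
        have := hcon (mem_univ j)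
        simpa using this)
      rw [mem_filter] at hj₀
      have hdm : ∀ j, h j ≠ 0 → d j ≤ d j₀ := fun j hj => hmax j (mem_filter.2 ⟨mem_univ j, hj⟩)
      have hPF := PF_comb d α G hG (d j₀) h hdm (q : ℝ)
      have hq0 : (0 : ℝ) < q := by exact_mod_cast hq
      have hW := hK₀ j₀ k (by have := hK₁le j₀; omega) D hD _ _ hPF (by
        intro Q hQ hQZ a
        rw [← hZ] at hQZ ⊢
        have hQ0 : (0 : ℝ) < Q := by exact_mod_cast hQ
        have hQ1 : (1 : ℝ) ≤ Q := by exact_mod_cast hQ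
        have h1 := hNL (d j₀) (fun j => (Q : ℤ) * h j) (a * q) (Z ^ (τ + η)) ⟨j₀, rfl, by
          have : (Q : ℤ) ≠ 0 := by exact_mod_cast (by omega : Q ≠ 0)
          exact mul_ne_zero this hj₀.2⟩ (by
          intro j
          push_cast
          rw [abs_mul, abs_of_pos hQ0, Real.rpow_add hZ0]
          exact mul_le_mul hQZ (hhZ j) (abs_nonneg _) (Real.rpow_nonneg hZ0.le _))
        obtain ⟨Λ, hΛ⟩ : ∃ Λ : ℝ, Λ = ∑ j, (if d j = d j₀ then (h j : ℝ) * α j else 0) := ⟨_, rfl⟩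
        have h2 : ∑ j, (if d j = d j₀ then (((Q : ℤ) * h j : ℤ) : ℝ) * α j else 0) = Q * Λ := by
          rw [hΛ, mul_sum]
          apply sum_congr rfl
          intro j _
          split_ifs
          · push_cast
            ring
          · ring
        rw [h2] at h1
        rw [← hΛ]
        have h3 : Λ / q - a / Q = (Q * Λ - ((a * q : ℤ) : ℝ)) / (q * Q) := by
          push_cast
          field_simp
        rw [h3, abs_div, abs_of_pos (mul_pos hq0 hQ0), lt_div_iff₀ (mul_pos hq0 hQ0)]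
        refine lt_of_lt_of_le ?_ h1
        have h4 : (q : ℝ) * Q ≤ Z ^ (τ + η) := by
          rw [add_comm, Real.rpow_add hZ0]
          exact mul_le_mul hqZ hQZ hQ0.le (Real.rpow_nonneg hZ0.le _)
        have h5 : (Z ^ (τ + η)) ^ (-μ) = Z ^ (-(μ * (τ + η))) := by
          rw [← Real.rpow_mul hZ0.le]
          congr 1
          ring
        rw [h5]
        have hτμ : 2 * τ * (μ + 1) = 1 / 2 := by
          rw [hτ]
          field_simp
          norm_num
        have h6 : (τ + η) * (μ + 1) ≤ 1 / 2 := by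
          calc (τ + η) * (μ + 1) ≤ 2 * τ * (μ + 1) := mul_le_mul_of_nonneg_right (by linarith) (by linarith)
            _ = 1 / 2 := hτμ
        have h7 : Z⁻¹ * ((q : ℝ) * Q) ≤ Z⁻¹ * Z ^ (τ + η) := mul_le_mul_of_nonneg_left h4 (by positivity)
        refine lt_of_le_of_lt h7 ?_
        have h8 : Z⁻¹ * Z ^ (τ + η) = Z ^ (-1 + (τ + η)) := by
          rw [Real.rpow_add hZ0 (-1) (τ + η), Real.rpow_neg_one]
        rw [h8]
        have h9 : Z ^ (-1 + (τ + η)) = Z ^ (-1 : ℝ) * Z ^ (τ + η) := Real.rpow_add hZ0 _ _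
        have h10 : Z ^ (-1 : ℝ) ≤ c / 2 * Z ^ (-(1 / 2) : ℝ) := by
          have : Z ^ (-1 : ℝ) = c / 2 * (2 / c * Z ^ (-1 : ℝ)) := by
            field_simp
          rw [this]
          exact mul_le_mul_of_nonneg_left hz1 (by positivity)
        rw [h9]
        calc Z ^ (-1 : ℝ) * Z ^ (τ + η) ≤ c / 2 * Z ^ (-(1 / 2) : ℝ) * Z ^ (τ + η) :=
              mul_le_mul_of_nonneg_right h10 (Real.rpow_nonneg hZ0.le _)
          _ = c / 2 * Z ^ (-(1 / 2) + (τ + η)) := by rw [mul_assoc, Real.rpow_add hZ0 (-(1 / 2)) (τ + η)]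
          _ ≤ c / 2 * Z ^ (-(μ * (τ + η))) := by
              apply mul_le_mul_of_nonneg_left (hmono _ _ _) (by positivity)
              nlinarith
          _ < c * Z ^ (-(μ * (τ + η))) := by
              apply mul_lt_mul_of_pos_right _ (Real.rpow_pos_of_pos hZ0 _)
              linarith)
      rw [← hS, ← hZ] at hW
      have e1 : ∑ n ∈ s, e (∑ j, (h j : ℝ) * (G j n / q)) =
          ∑ n ∈ S, ee (∑ j, (h j : ℝ) * (G j n / q)) - ∑ n ∈ lo, ee (∑ j, (h j : ℝ) * (G j n / q)) := by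
        rw [← sum_filter_add_sum_filter_not S (fun n : ℕ => Z ^ (1 - ε) ≤ n)]
        simp only [e_eq]
        rw [← hs, ← hlo]
        ring
      rw [e1]
      have e2 : ‖∑ n ∈ lo, ee (∑ j, (h j : ℝ) * (G j n / q))‖ ≤ lo.card := by
        refine (norm_sum_le _ _).trans ?_
        simp only [norm_ee, sum_const, nsmul_eq_mul, mul_one]
        exact le_rfl
      have e3 : ‖∑ n ∈ S, ee (∑ j, (h j : ℝ) * (G j n / q))‖ ≤ S.card * Z ^ (-(2 * η)) := by
        refine hW.trans (mul_le_mul_of_nonneg_left (hmono _ _ ?_) hcard.le)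
        have := hη₁le j₀
        linarith
      have e4 : (S.card : ℝ) * Z ^ (-(2 * η)) ≤ S.card * (Z ^ (-η) / 8) :=
        mul_le_mul_of_nonneg_left (by linarith) hcard.le
      calc _ ≤ _ := norm_sub_le _ _
        _ ≤ S.card * (Z ^ (-η) / 8) + S.card * (Z ^ (-η) / 8) := add_le_add (e3.trans e4) (e2.trans hlow)
        _ = S.card / 4 * Z ^ (-η) := by ring
        _ ≤ s.card * Z ^ (-η) := mul_le_mul_of_nonneg_right (by linarith) hZη0.le)
  refine ⟨A, hAs.trans (filter_subset _ _), ?_, fun n hn j q hq => hA2 n hn j q hq⟩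
  refine le_trans ?_ hA1
  have h1 : Z ^ (-ε) ≤ Z ^ (-η) / 8 := by
    refine (hmono _ _ (by linarith : -ε ≤ -(2 * η))).trans ?_
    linarith
  calc (S.card : ℝ) * Z ^ (-ε) ≤ S.card * (Z ^ (-η) / 8) := mul_le_mul_of_nonneg_left h1 hcard.le
    _ = S.card / 8 * Z ^ (-η) := by ring
    _ ≤ s.card * Z ^ (-η) := mul_le_mul_of_nonneg_right (by linarith) hZη0.le

end Pool.Agent.J4.H78.RD
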