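import Pool.Agent.J4.H93.PD.PD2
import Pool.Agent.J4.H78.RD.Dig

set_option autoImplicit false

/-! Power saving in exponential sums over polynomial values at integers with restricted digits, if the
leading coefficient has no good rational approximations. -/

namespace Pool.Agent.J4.H78.RD
open Finset
open Pool.Agent.H807R2.Dav
open Pool.Agent.TH872.Sq (Dig P P_nonneg P_le P_sum ex_split_real)
open Pool.Agent.J4.H93.PD

/-- from the weighted sum to the sum over the set -/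
lemma sum_SD (b : ℕ) (hb : 2 ≤ b) (D : ℕ → Finset ℕ) (k : ℕ) (hD : ∀ i < k, D i ⊆ range b ∧ 2 ≤ (D i).card)
    (g : ℕ → ℂ) :
    ∑ n ∈ SD b D k, g n =
      ((SD b D k).card : ℂ) * ∑ n ∈ range (b ^ k), ((P b (wD D k) 0 k n : ℝ) : ℂ) * g n := by
  classical
  have hcard := SD_card_pos b hb D k hD
  have hne : ((SD b D k).card : ℂ) ≠ 0 := by
    have : (SD b D k).card ≠ 0 := by
      intro h
      rw [h, Nat.cast_zero] at hcard
      exact lt_irrefl _ hcard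
    exact_mod_cast this
  have h4 : ∀ n ∈ range (b ^ k), ((P b (wD D k) 0 k n : ℝ) : ℂ) * g n =
      if n ∈ SD b D k then (1 / ((SD b D k).card : ℂ)) * g n else 0 := by
    intro n hn
    rw [P_wD b hb D k hD n hn]
    split_ifs
    · push_cast
      rfl
    · simp
  rw [sum_congr rfl h4, ← sum_filter, ← mul_sum, ← mul_assoc, mul_one_div_cancel hne, one_mul]
  apply sum_congr _ fun _ _ => rfl
  ext n
  rw [mem_filter]
  refine ⟨fun h => ⟨?_, h⟩, fun h => h.2⟩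
  unfold SD at h
  exact (mem_filter.1 h).1

/-- **Power saving.** -/
theorem weyl_pow (b : ℕ) (hb : 2 ≤ b) (m : ℕ) (hm : 2 ≤ m) (τ : ℝ) (hτ : 0 < τ) :
    ∃ η : ℝ, 0 < η ∧ ∃ K₀ : ℕ, ∀ k : ℕ, K₀ ≤ k → ∀ D : ℕ → Finset ℕ,
    (∀ i < k, D i ⊆ range b ∧ 2 ≤ (D i).card) → ∀ (θ : ℝ) (F : ℝ → ℝ), PF m θ F →
    (∀ Q : ℕ, 1 ≤ Q → (Q : ℝ) ≤ ((b : ℝ) ^ k) ^ τ → ∀ a : ℤ, ((b : ℝ) ^ k)⁻¹ < |θ - a / Q|) →
    ‖∑ n ∈ SD b D k, ee (F n)‖ ≤ (SD b D k).card * ((b : ℝ) ^ k) ^ (-η) := by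
  obtain ⟨e, rfl⟩ : ∃ e, m = e + 2 := ⟨m - 2, by omega⟩
  obtain ⟨s, f, c₁, c₂, hs, hf, hweyl⟩ := weyl_deg b hb (1 / 2) (by norm_num) (by norm_num) e
  have hb2 : (2 : ℝ) ≤ b := by exact_mod_cast hb
  have hb0 : (0 : ℝ) < b := by linarith
  have hlogb : 0 < Real.log b := Real.log_pos (by linarith)
  obtain ⟨M, hM⟩ : ∃ M, M = 2 ^ (e + 1) * s := ⟨_, rfl⟩
  have hM1 : 1 ≤ M := by
    rw [hM]
    exact Nat.mul_pos (by positivity) hs
  obtain ⟨N, hN⟩ : ∃ N : ℕ, N = 4 * (e + 2) + c₂ + ⌈2 * (c₁ : ℝ) / τ⌉₊ + 1 := ⟨_, rfl⟩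
  have hN1 : 1 ≤ N := by omega
  have hN0 : (0 : ℝ) < N := by exact_mod_cast (by omega : 0 < N)
  have hM0 : (0 : ℝ) < M := by exact_mod_cast (by omega : 0 < M)
  obtain ⟨t, ht⟩ : ∃ t : ℝ, t = -Real.log (3 / 4) := ⟨_, rfl⟩
  have ht0 : 0 < t := by
    rw [ht, neg_pos]
    exact Real.log_neg (by norm_num) (by norm_num)
  -- the saving
  obtain ⟨η, hη⟩ : ∃ η : ℝ, η = t / (2 * N * M * Real.log b) := ⟨_, rfl⟩
  have hη0 : 0 < η := by rw [hη]; positivity
  obtain ⟨k₁, hk₁⟩ := exists_nat_ge ((Real.log (e + 1) + t) * (2 * N) / t)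
  obtain ⟨k₂, hk₂⟩ := exists_nat_ge (2 * Real.log f / (τ * Real.log b))
  refine ⟨η, hη0, k₁ + k₂ + 2 * N, fun k hk D hD θ F hF hθ => ?_⟩
  have hkr : (0 : ℝ) ≤ k := Nat.cast_nonneg k
  obtain ⟨L, hL⟩ : ∃ L, L = k / N := ⟨_, rfl⟩
  have hLN : N * L ≤ k := by rw [hL]; exact Nat.mul_div_le k N
  have hLk : k < N * (L + 1) := by
    rw [hL]
    exact Nat.lt_mul_div_succ k (by omega)
  have hL2 : 2 ≤ L := by
    rw [hL, Nat.le_div_iff_mul_le (by omega)]
    omega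
  have hZ0 : (0 : ℝ) < (b : ℝ) ^ k := by positivity
  have hZpow : ∀ x : ℝ, ((b : ℝ) ^ k) ^ x = Real.exp (x * k * Real.log b) := by
    intro x
    rw [← Real.rpow_natCast, ← Real.rpow_mul hb0.le, Real.rpow_def_of_pos hb0]
    congr 1
    ring
  have hmain := hweyl k L hL2 (by
    calc 4 * (e + 2) * L ≤ N * L := Nat.mul_le_mul_right _ (by omega)
      _ ≤ k := hLN) (wD D k) (dig_wD b hb D k hD) 0 θ F hF
  rcases hmain with h | ⟨Q, a, hQ1, hQ2, hQ3⟩
  · rw [sum_SD b hb D k hD, norm_mul]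
    rw [show ‖((SD b D k).card : ℂ)‖ = ((SD b D k).card : ℝ) from by simp]
    apply mul_le_mul_of_nonneg_left _ (Nat.cast_nonneg _)
    rw [← hM] at h
    refine le_of_pow_le_pow_left₀ (by omega : M ≠ 0) (by positivity) (h.trans ?_)
    rw [hZpow, ← Real.exp_nat_mul]
    have he1 : (0 : ℝ) < (e : ℝ) + 1 := by positivity
    have h34 : (1 - (1 / 2 : ℝ) / 2) = 3 / 4 := by norm_num
    rw [h34]
    have e1 : (3 / 4 : ℝ) ^ L = Real.exp (-(t * L)) := by
      rw [ht, ← Real.exp_log (by norm_num : (0 : ℝ) < 3 / 4), ← Real.exp_nat_mul, Real.log_exp]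
      congr 1
      ring
    have e2 : ((e : ℝ) + 1) = Real.exp (Real.log (e + 1)) := (Real.exp_log he1).symm
    rw [e1]
    nth_rewrite 1 [e2]
    rw [← Real.exp_add]
    apply Real.exp_le_exp.2
    have e3 : (M : ℝ) * (-η * k * Real.log b) = -(t * k / (2 * N)) := by
      rw [hη]
      field_simp
    rw [e3]
    have e4 : (k : ℝ) ≤ N * (L + 1) := by exact_mod_cast hLk.le
    have e5 : (k₁ : ℝ) ≤ k := by exact_mod_cast (by omega : k₁ ≤ k)
    have e6 : (Real.log (e + 1) + t) * (2 * N) ≤ k * t := by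
      have := hk₁.trans e5
      rwa [div_le_iff₀ ht0] at this
    have e7 : t * k / (2 * N) + (Real.log (e + 1) + t) ≤ t * k / N := by
      rw [div_add' _ _ _ (by positivity), div_le_div_iff₀ (by positivity) hN0]
      have : 0 ≤ (N : ℝ) := hN0.le
      nlinarith
    have e8 : t * k / N ≤ t * (L + 1) := by
      rw [div_le_iff₀ hN0]
      nlinarith
    linarith
  · exfalso
    have hQr : (0 : ℝ) < Q := by exact_mod_cast hQ1
    have h1 : (Q : ℝ) ≤ ((b : ℝ) ^ k) ^ τ := by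
      have h2 : (Q : ℝ) ≤ f * (b : ℝ) ^ (c₁ * L) := by exact_mod_cast hQ2
      refine h2.trans ?_
      have hf0 : (0 : ℝ) < f := by exact_mod_cast hf
      have e1 : (f : ℝ) * (b : ℝ) ^ (c₁ * L) = Real.exp (Real.log f + (c₁ * L : ℕ) * Real.log b) := by
        rw [Real.exp_add, Real.exp_log hf0, Real.exp_nat_mul, Real.exp_log hb0]
      rw [e1, hZpow]
      apply Real.exp_le_exp.2
      have e2 : (k₂ : ℝ) ≤ k := by exact_mod_cast (by omega : k₂ ≤ k)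
      have e3 : 2 * Real.log f ≤ k * (τ * Real.log b) := by
        have := hk₂.trans e2
        rwa [div_le_iff₀ (by positivity)] at this
      have e4 : 2 * ((c₁ * L : ℕ) : ℝ) ≤ τ * k := by
        have g1 : 2 * (c₁ : ℝ) / τ ≤ N := by
          refine (Nat.le_ceil _).trans ?_
          rw [hN]
          push_cast
          have : (0 : ℝ) ≤ 4 * ((e : ℝ) + 2) + c₂ := by positivity
          linarith
        rw [div_le_iff₀ hτ] at g1
        have g2 : (N : ℝ) * L ≤ k := by exact_mod_cast hLN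
        have g3 : (0 : ℝ) ≤ L := Nat.cast_nonneg L
        push_cast
        calc 2 * ((c₁ : ℝ) * L) = 2 * (c₁ : ℝ) * L := by ring
          _ ≤ N * τ * L := mul_le_mul_of_nonneg_right g1 g3
          _ = τ * (N * L) := by ring
          _ ≤ τ * k := mul_le_mul_of_nonneg_left g2 hτ.le
      nlinarith
    have h2 := hθ Q hQ1 h1 a
    have h3 : (b : ℝ) ^ (c₂ * L) ≤ (b : ℝ) ^ k := by
      apply pow_le_pow_right₀ (by linarith)
      calc c₂ * L ≤ N * L := Nat.mul_le_mul_right _ (by omega)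
        _ ≤ k := hLN
    have h4 : (b : ℝ) ^ (2 * k) ≤ (b : ℝ) ^ ((e + 2) * k) :=
      pow_le_pow_right₀ (by linarith) (Nat.mul_le_mul_right _ (by omega))
    have h5 : ((b : ℝ) ^ k)⁻¹ * (b : ℝ) ^ (2 * k) < |θ - a / Q| * (b : ℝ) ^ ((e + 2) * k) := by
      calc ((b : ℝ) ^ k)⁻¹ * (b : ℝ) ^ (2 * k) < |θ - a / Q| * (b : ℝ) ^ (2 * k) :=
            mul_lt_mul_of_pos_right h2 (by positivity)
        _ ≤ _ := mul_le_mul_of_nonneg_left h4 (abs_nonneg _)
    have h6 : ((b : ℝ) ^ k)⁻¹ * (b : ℝ) ^ (2 * k) = (b : ℝ) ^ k := by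
      rw [two_mul, pow_add, ← mul_assoc, inv_mul_cancel₀ hZ0.ne', one_mul]
    rw [h6] at h5
    linarith

/-- few members below `b ^ m` -/
lemma few_low (b : ℕ) (hb : 2 ≤ b) (D : ℕ → Finset ℕ) (m k : ℕ) (hmk : m ≤ k)
    (hD : ∀ i < k, D i ⊆ range b ∧ 2 ≤ (D i).card) :
    (((SD b D k).filter (fun n => n < b ^ m)).card : ℝ) ≤ ((SD b D k).card : ℝ) * (1 / 2) ^ (k - m) := by
  obtain ⟨j, rfl⟩ : ∃ j, k = m + j := ⟨k - m, by omega⟩
  have h := prefix_small b hb D m j hD 0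
  rw [Nat.add_sub_cancel_left]
  refine le_trans ?_ h
  apply Nat.cast_le.2
  apply card_le_card
  intro n hn
  rw [mem_filter] at hn ⊢
  exact ⟨hn.1, Nat.div_eq_of_lt hn.2⟩

end Pool.Agent.J4.H78.RD
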